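import Mathlib

open Matrix Pointwise

namespace Pool.Agent.Results.MP_b8636a_al.FiveProductsDiffer

/-- The root unipotent for the positive root of `A₁`. -/
def xPos {R : Type} [CommRing R] (t : R) : SpecialLinearGroup (Fin 2) R :=
  ⟨!![1, t; 0, 1], by simp [Matrix.det_fin_two]⟩

/-- The root unipotent for the negative root of `A₁`. -/
def xNeg {R : Type} [CommRing R] (t : R) : SpecialLinearGroup (Fin 2) R :=
  ⟨!![1, 0; t, 1], by simp [Matrix.det_fin_two]⟩

/-- `U`, generated by the positive root unipotents. -/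
def U (R : Type) [CommRing R] : Set (SpecialLinearGroup (Fin 2) R) :=
  Subgroup.closure (Set.range (xPos (R := R)))

/-- `U⁻`, generated by the negative root unipotents. -/
def Uneg (R : Type) [CommRing R] : Set (SpecialLinearGroup (Fin 2) R) :=
  Subgroup.closure (Set.range (xNeg (R := R)))

lemma mem_U {g : SpecialLinearGroup (Fin 2) ℤ} (hg : g ∈ U ℤ) : ∃ t, g = xPos t := by
  induction hg using Subgroup.closure_induction with
  | mem x hx => obtain ⟨t, rfl⟩ := hx; exact ⟨t, rfl⟩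
  | one => exact ⟨0, by ext i j; fin_cases i <;> fin_cases j <;> rfl⟩
  | mul x y _ _ hx hy =>
    obtain ⟨s, rfl⟩ := hx
    obtain ⟨t, rfl⟩ := hy
    exact ⟨t + s, by ext i j; fin_cases i <;> fin_cases j <;> simp [xPos]⟩
  | inv x _ hx =>
    obtain ⟨s, rfl⟩ := hx
    exact ⟨-s, by
      rw [inv_eq_iff_mul_eq_one]; ext i j; fin_cases i <;> fin_cases j <;> simp [xPos]⟩

lemma mem_Uneg {g : SpecialLinearGroup (Fin 2) ℤ} (hg : g ∈ Uneg ℤ) : ∃ t, g = xNeg t := by
  induction hg using Subgroup.closure_induction with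
  | mem x hx => obtain ⟨t, rfl⟩ := hx; exact ⟨t, rfl⟩
  | one => exact ⟨0, by ext i j; fin_cases i <;> fin_cases j <;> rfl⟩
  | mul x y _ _ hx hy =>
    obtain ⟨s, rfl⟩ := hx
    obtain ⟨t, rfl⟩ := hy
    exact ⟨s + t, by ext i j; fin_cases i <;> fin_cases j <;> simp [xNeg]⟩
  | inv x _ hx =>
    obtain ⟨s, rfl⟩ := hx
    exact ⟨-s, by
      rw [inv_eq_iff_mul_eq_one]; ext i j; fin_cases i <;> fin_cases j <;> simp [xNeg]⟩

lemma arith (x y z t : ℤ) (h1 : x + z + x * y * z = 21) (h2 : 1 + x * y + 21 * t = 8) : False := by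
  have hA : 8 ≤ |1 + x * y| := by
    rw [le_abs]; omega
  have hy : y ≠ 0 := by rintro rfl; omega
  have hx : |x| ≤ |1 + x * y| + 1 := by
    have h3 : |x| ≤ |x * y| := by
      rw [abs_mul]; exact le_mul_of_one_le_right (abs_nonneg x) (Int.one_le_abs hy)
    have h4 : |x * y| ≤ |1 + x * y| + 1 := by
      have := abs_sub (1 + x * y) 1
      simpa using this
    omega
  have hz : |z| * |1 + x * y| ≤ 21 + |x| := by
    rw [← abs_mul, show z * (1 + x * y) = 21 - x by linear_combination h1]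
    simpa using abs_sub (21 : ℤ) x
  have hz3 : |z| ≤ 3 := by
    by_contra h
    have : 4 ≤ |z| := by omega
    nlinarith
  have hd : x ∣ 21 - z := ⟨1 + y * z, by linear_combination -h1⟩
  rw [abs_le] at hz3
  have hx2 : |x| ≤ 24 := by
    have := Int.le_of_dvd (show 0 < 21 - z by omega) ((abs_dvd x _).2 hd)
    omega
  rw [abs_le] at hx2
  obtain ⟨a1, a2⟩ := hz3
  obtain ⟨a3, a4⟩ := hx2
  clear hA hx hz hd
  interval_cases z <;> interval_cases x <;> omega

theorem result : Uneg ℤ * U ℤ * Uneg ℤ * U ℤ * Uneg ℤ ≠ U ℤ * Uneg ℤ * U ℤ * Uneg ℤ * U ℤ := by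
  intro h
  have hp : ∀ t : ℤ, xPos t ∈ U ℤ := fun t => Subgroup.subset_closure ⟨t, rfl⟩
  have hn : ∀ t : ℤ, xNeg t ∈ Uneg ℤ := fun t => Subgroup.subset_closure ⟨t, rfl⟩
  have hg : xPos 2 * xNeg 1 * xPos 1 * xNeg 1 * xPos 2 ∈ U ℤ * Uneg ℤ * U ℤ * Uneg ℤ * U ℤ :=
    Set.mul_mem_mul (Set.mul_mem_mul (Set.mul_mem_mul (Set.mul_mem_mul (hp _) (hn _)) (hp _))
      (hn _)) (hp _)
  rw [← h] at hg
  obtain ⟨_, ⟨_, ⟨_, ⟨a, ha, b, hb, rfl⟩, c, hc, rfl⟩, d, hd, rfl⟩, e, he, heq⟩ := hg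
  obtain ⟨s, rfl⟩ := mem_Uneg ha
  obtain ⟨x, rfl⟩ := mem_U hb
  obtain ⟨y, rfl⟩ := mem_Uneg hc
  obtain ⟨z, rfl⟩ := mem_U hd
  obtain ⟨t, rfl⟩ := mem_Uneg he
  have h0 := congrArg (fun g : SpecialLinearGroup (Fin 2) ℤ => g.1 0 0) heq
  have h1 := congrArg (fun g : SpecialLinearGroup (Fin 2) ℤ => g.1 0 1) heq
  simp [xPos, xNeg] at h0 h1
  exact arith x y z t (by linear_combination h1) (by linear_combination h0 - t * h1)

end Pool.Agent.Results.MP_b8636a_al.FiveProductsDiffer
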